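import Mathlib

/-!
# A closed maximal eventually different family of permutations: definitions

Helper file for problem MP_6a83a4_lc.

Labels are points `x` of the Baire space.  A label carries a function `hx x` (intended: a
permutation `h`), a function `hi x` (intended: the inverse of `h`), a bit `x 0` and a witness
`wx x`.  Every label `x` gives a permutation `f x`, which codes `x` almost everywhere
(Cantor-Bernstein with the injections `α x`, `β x`) and agrees with `hx x` at the positions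
`pos (hx x) k`, `k` inserted.
-/

namespace Pool.Agent.Q302.EP

abbrev Seq := ℕ → ℕ

/-- initial segment -/
def pre (x : Seq) (n : ℕ) : List ℕ := (List.range n).map x

theorem pre_length (x : Seq) (n : ℕ) : (pre x n).length = n := by simp [pre]

theorem pre_eq {x y : Seq} {n m : ℕ} (h : pre x n = pre y m) : n = m ∧ ∀ i < n, x i = y i := by
  have h1 : n = m := by
    have := congrArg List.length h
    simpa [pre] using this
  subst h1
  refine ⟨rfl, fun i hi => ?_⟩
  have h2 : (pre x n)[i]? = (pre y n)[i]? := by rw [h]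
  simpa [pre, hi] using h2

theorem pre_congr {x y : Seq} {n : ℕ} (h : ∀ i < n, x i = y i) : pre x n = pre y n := by
  unfold pre
  apply List.map_congr_left
  intro i hi
  exact h i (List.mem_range.1 hi)

def cA (n : ℕ) (t : List ℕ) : ℕ := 4 * Nat.pair n (Encodable.encode t) + 4
def cB (m : ℕ) (t : List ℕ) : ℕ := 4 * Nat.pair m (Encodable.encode t) + 5
def cC (t : List ℕ) : ℕ := 4 * Encodable.encode t + 2

theorem cA_inj {n n' : ℕ} {t t' : List ℕ} (h : cA n t = cA n' t') : n = n' ∧ t = t' := by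
  unfold cA at h
  have h1 : Nat.pair n (Encodable.encode t) = Nat.pair n' (Encodable.encode t') := by omega
  have h2 := Nat.pair_eq_pair.1 h1
  exact ⟨h2.1, Encodable.encode_injective h2.2⟩

theorem cB_inj {n n' : ℕ} {t t' : List ℕ} (h : cB n t = cB n' t') : n = n' ∧ t = t' := by
  unfold cB at h
  have h1 : Nat.pair n (Encodable.encode t) = Nat.pair n' (Encodable.encode t') := by omega
  have h2 := Nat.pair_eq_pair.1 h1
  exact ⟨h2.1, Encodable.encode_injective h2.2⟩

theorem cC_inj {t t' : List ℕ} (h : cC t = cC t') : t = t' := by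
  unfold cC at h
  exact Encodable.encode_injective (by omega)

theorem lt_cA (n : ℕ) (t : List ℕ) : n < cA n t := by
  unfold cA
  have := Nat.left_le_pair n (Encodable.encode t)
  omega

theorem lt_cB (n : ℕ) (t : List ℕ) : n < cB n t := by
  unfold cB
  have := Nat.left_le_pair n (Encodable.encode t)
  omega

theorem length_le_cC (t : List ℕ) : t.length ≤ cC t := by
  have := Encodable.length_le_encode t
  unfold cC
  omega

theorem cB_ne_cC (m : ℕ) (t t' : List ℕ) : cB m t ≠ cC t' := by unfold cB cC; omega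

/-- decoding the first component of a B-code -/
def bm (n : ℕ) : ℕ := (Nat.unpair ((n - 5) / 4)).1

theorem bm_cB (m : ℕ) (t : List ℕ) : bm (cB m t) = m := by
  unfold bm cB
  have : (4 * Nat.pair m (Encodable.encode t) + 5 - 5) / 4 = Nat.pair m (Encodable.encode t) := by
    omega
  rw [this, Nat.unpair_pair]

/-! ### labels -/

def hx (x : Seq) : Seq := fun n => x (3 * n + 1)
def hi (x : Seq) : Seq := fun n => x (3 * n + 2)
def wx (x : Seq) : Seq := fun n => x (3 * n + 3)

/-- positions -/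
def pos (h : Seq) (k : ℕ) : ℕ := cC (pre h k)

/-- value at a position -/
def val (h : Seq) (k : ℕ) : ℕ := h (pos h k)

theorem le_pos (h : Seq) (k : ℕ) : k ≤ pos h k := by
  have := length_le_cC (pre h k)
  rwa [pre_length] at this

theorem pos_eq {h h' : Seq} {k l : ℕ} (e : pos h k = pos h' l) : k = l ∧ ∀ i < k, h i = h' i :=
  pre_eq (cC_inj e)

theorem pos_congr {h h' : Seq} {k : ℕ} (e : ∀ i < k, h i = h' i) : pos h k = pos h' k := by
  unfold pos; rw [pre_congr e]

open Classical in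
/-- colour of a value -/
noncomputable def colv (v : ℕ) : ℕ :=
  if ∃ n t, v = cA n t ∧ t.length = n + 1 ∧ t.head? = some 0 then 1 else 0

theorem colv_le (v : ℕ) : colv v ≤ 1 := by unfold colv; split_ifs <;> omega

/-- `t` is the coding list of the pair `(p, v)` -/
def Cod (p v : ℕ) (t : List ℕ) : Prop := v = cA p t ∧ t.length = p + 1

/-- extension of codes -/
def Extv (p v p' v' : ℕ) : Prop := ∃ t t', Cod p v t ∧ Cod p' v' t' ∧ t <+: t'

def Ext (h : Seq) (k l : ℕ) : Prop := Extv (pos h k) (val h k) (pos h l) (val h l)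

/-- `k` is terminal -/
def Term (h : Seq) (k : ℕ) : Prop := {l | Ext h k l}.Finite

/-! ### valid labels -/

def V1 (x : Seq) (n : ℕ) : Prop := hi x (hx x n) = n ∧ hx x (hi x n) = n

def V2a (x : Seq) (c : ℕ) : Prop :=
  (colv (val (hx x) (Nat.unpair c).1) ≠ x 0 → wx x (2 * c) = 1) ∧
  (colv (val (hx x) (Nat.unpair c).1) = x 0 → wx x (2 * c) ≠ 1) ∧
  (2 ≤ wx x (2 * c) → (Nat.unpair c).2 ≤ wx x (2 * c) - 2 ∧
    Ext (hx x) (Nat.unpair c).1 (wx x (2 * c) - 2) ∧
    ∀ l < wx x (2 * c) - 2, (Nat.unpair c).2 ≤ l → ¬ Ext (hx x) (Nat.unpair c).1 l)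

def V2b (x : Seq) (c l : ℕ) : Prop :=
  wx x (2 * c) = 0 → (Nat.unpair c).2 ≤ l → ¬ Ext (hx x) (Nat.unpair c).1 l

def V3 (x : Seq) (j : ℕ) : Prop :=
  j ≤ (Nat.unpair (wx x (2 * j + 1))).1 ∧ wx x (2 * wx x (2 * j + 1)) = 0 ∧
    ∀ c < wx x (2 * j + 1), ¬ (j ≤ (Nat.unpair c).1 ∧ wx x (2 * c) = 0)

/-- The closed set of valid labels. -/
def W : Set Seq := {x | (∀ n, V1 x n) ∧ (∀ c, V2a x c) ∧ (∀ c l, V2b x c l) ∧ ∀ j, V3 x j}

def agree (m : ℕ) (x y : Seq) : Prop := ∀ i < m, x i = y i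

def valid (x : Seq) (m : ℕ) : Prop := ∃ y ∈ W, agree m x y

/-- `k` is selected -/
def sel (x : Seq) (k : ℕ) : Prop := ∃ j < k + 1, (Nat.unpair (wx x (2 * j + 1))).1 = k

def Lb (x : Seq) (k : ℕ) : ℕ := 3 * (pos (hx x) k + val (hx x) k + 2 * k + 2) + 4

/-- `k` is inserted -/
def Ins (x : Seq) (k : ℕ) : Prop := sel x k ∧ valid x (Lb x k)

/-! ### the permutation of a label -/

def inD (x : Seq) (n : ℕ) : Prop := ∃ k < n + 1, n = pos (hx x) k ∧ Ins x k
def inR (x : Seq) (m : ℕ) : Prop := ∃ k < hi x m + 1, m = val (hx x) k ∧ Ins x k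

def α (x : Seq) (n : ℕ) : ℕ := cA n (pre x (n + 1))
def β (x : Seq) (m : ℕ) : ℕ := cB m (pre x (m + 1))

theorem lt_α (x : Seq) (n : ℕ) : n < α x n := lt_cA _ _
theorem lt_β (x : Seq) (n : ℕ) : n < β x n := lt_cB _ _

/-- use the injection `α` at `n` -/
def P (x : Seq) (n : ℕ) : Prop :=
  ∀ m, (_ : m < n) → n = β x m → ¬ inR x m →
    ∃ n', ∃ (_ : n' < m), m = α x n' ∧ ¬ inD x n' ∧ P x n'
termination_by n
decreasing_by omega

open Classical in
/-- The permutation with label `x`. -/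
noncomputable def f (x : Seq) (n : ℕ) : ℕ :=
  if inD x n then hx x n else if P x n then α x n else bm n

/-! ### locally decided functions -/

/-- locally decided = continuous into a discrete space -/
def LD {T : Type} (φ : Seq → T) : Prop := ∀ x, ∃ m, ∀ y, agree m x y → φ y = φ x

theorem agree.mono {m m' : ℕ} {x y : Seq} (h : agree m' x y) (hm : m ≤ m') : agree m x y :=
  fun i hi => h i (hi.trans_le hm)

theorem agree.symm {m : ℕ} {x y : Seq} (h : agree m x y) : agree m y x := fun i hi => (h i hi).symm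

theorem LD_const {T : Type} (a : T) : LD (fun _ => a) := fun _ => ⟨0, fun _ _ => rfl⟩

theorem LD_map {S T : Type} {φ : Seq → S} (hφ : LD φ) (F : S → T) : LD (fun x => F (φ x)) := by
  intro x
  obtain ⟨m, hm⟩ := hφ x
  exact ⟨m, fun y hy => by
    show F (φ y) = F (φ x)
    rw [hm y hy]⟩

theorem LD_map2 {S S' T : Type} {φ : Seq → S} {ψ : Seq → S'} (hφ : LD φ) (hψ : LD ψ)
    (F : S → S' → T) : LD (fun x => F (φ x) (ψ x)) := by
  intro x
  obtain ⟨m, hm⟩ := hφ x
  obtain ⟨m', hm'⟩ := hψ x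
  exact ⟨max m m', fun y hy => by
    show F (φ y) (ψ y) = F (φ x) (ψ x)
    rw [hm y (hy.mono (le_max_left _ _)), hm' y (hy.mono (le_max_right _ _))]⟩

theorem LD_bind {S T : Type} {φ : Seq → S} (hφ : LD φ) {ψ : S → Seq → T} (hψ : ∀ a, LD (ψ a)) :
    LD (fun x => ψ (φ x) x) := by
  intro x
  obtain ⟨m, hm⟩ := hφ x
  obtain ⟨m', hm'⟩ := hψ (φ x) x
  exact ⟨max m m', fun y hy => by
    show ψ (φ y) y = ψ (φ x) x
    rw [hm y (hy.mono (le_max_left _ _)), hm' y (hy.mono (le_max_right _ _))]⟩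

theorem LD_apply (i : ℕ) : LD (fun x => x i) := fun x =>
  ⟨i + 1, fun y hy => (hy i (Nat.lt_succ_self i)).symm⟩

theorem LD_not {φ : Seq → Prop} (h : LD φ) : LD (fun x => ¬ φ x) := LD_map h Not
theorem LD_and {φ ψ : Seq → Prop} (h : LD φ) (h' : LD ψ) : LD (fun x => φ x ∧ ψ x) := LD_map2 h h' And
theorem LD_imp {φ ψ : Seq → Prop} (h : LD φ) (h' : LD ψ) : LD (fun x => φ x → ψ x) :=
  LD_map2 h h' (fun a b => a → b)

theorem LD_exists_lt {φ : Seq → ℕ} (hφ : LD φ) {ψ : ℕ → Seq → Prop} (hψ : ∀ k, LD (ψ k)) :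
    LD (fun x => ∃ k < φ x, ψ k x) := by
  refine LD_bind (φ := φ) (ψ := fun N x => ∃ k < N, ψ k x) hφ ?_
  intro N
  induction N with
  | zero => 
    have : (fun x : Seq => ∃ k < 0, ψ k x) = fun _ => False := by
      funext x; simp
    rw [this]; exact LD_const _
  | succ N ih =>
    have : (fun x : Seq => ∃ k < N + 1, ψ k x) = fun x => (∃ k < N, ψ k x) ∨ ψ N x := by
      funext x
      apply propext
      constructor
      · rintro ⟨k, hk, h⟩
        rcases Nat.lt_succ_iff_lt_or_eq.1 hk with h1 | h1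
        · exact Or.inl ⟨k, h1, h⟩
        · subst h1; exact Or.inr h
      · rintro (⟨k, hk, h⟩ | h)
        · exact ⟨k, by omega, h⟩
        · exact ⟨N, by omega, h⟩
    rw [this]
    exact LD_map2 ih (hψ N) Or

theorem LD_forall_lt {φ : Seq → ℕ} (hφ : LD φ) {ψ : ℕ → Seq → Prop} (hψ : ∀ k, LD (ψ k)) :
    LD (fun x => ∀ k < φ x, ψ k x) := by
  have h1 := LD_not (LD_exists_lt hφ (fun k => LD_not (hψ k)))
  have : (fun x : Seq => ∀ k < φ x, ψ k x) = fun x => ¬ ∃ k < φ x, ¬ ψ k x := by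
    funext x
    apply propext
    push Not
    rfl
  rw [this]
  exact h1

theorem LD_hx (i : ℕ) : LD (fun x => hx x i) := LD_apply _
theorem LD_hi (i : ℕ) : LD (fun x => hi x i) := LD_apply _
theorem LD_wx (i : ℕ) : LD (fun x => wx x i) := LD_apply _

theorem LD_prex (n : ℕ) : LD (fun x => pre x n) := fun x =>
  ⟨n, fun _ hy => pre_congr (fun i hi => (hy i hi).symm)⟩

theorem LD_pos (k : ℕ) : LD (fun x => pos (hx x) k) := fun x =>
  ⟨3 * k + 1, fun y hy => pos_congr (fun i hi => (hy _ (by omega)).symm)⟩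

theorem LD_val (k : ℕ) : LD (fun x => val (hx x) k) :=
  LD_bind (φ := fun x => pos (hx x) k) (ψ := fun p x => hx x p) (LD_pos k) LD_hx

theorem LD_Ext (k l : ℕ) : LD (fun x => Ext (hx x) k l) := by
  have h1 : LD (fun x => (pos (hx x) k, val (hx x) k)) := LD_map2 (LD_pos k) (LD_val k) Prod.mk
  have h2 : LD (fun x => (pos (hx x) l, val (hx x) l)) := LD_map2 (LD_pos l) (LD_val l) Prod.mk
  exact LD_map2 h1 h2 (fun a b => Extv a.1 a.2 b.1 b.2)

theorem LD_V1 (n : ℕ) : LD (fun x => V1 x n) := by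
  have h1 : LD (fun x => hi x (hx x n)) :=
    LD_bind (φ := fun x => hx x n) (ψ := fun p x => hi x p) (LD_hx n) LD_hi
  have h2 : LD (fun x => hx x (hi x n)) :=
    LD_bind (φ := fun x => hi x n) (ψ := fun p x => hx x p) (LD_hi n) LD_hx
  exact LD_map2 h1 h2 (fun a b => a = n ∧ b = n)

theorem LD_V2a (c : ℕ) : LD (fun x => V2a x c) := by
  have h1 : LD (fun x => (colv (val (hx x) (Nat.unpair c).1), x 0)) :=
    LD_map2 (LD_map (LD_val _) colv) (LD_apply 0) Prod.mk
  have h2 : LD (fun x => wx x (2 * c)) := LD_wx _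
  have h3 : LD (fun x => 2 ≤ wx x (2 * c) → (Nat.unpair c).2 ≤ wx x (2 * c) - 2 ∧
      Ext (hx x) (Nat.unpair c).1 (wx x (2 * c) - 2) ∧
      ∀ l < wx x (2 * c) - 2, (Nat.unpair c).2 ≤ l → ¬ Ext (hx x) (Nat.unpair c).1 l) := by
    refine LD_imp (LD_map h2 (fun a => 2 ≤ a)) (LD_and (LD_map h2 (fun a => (Nat.unpair c).2 ≤ a - 2))
      (LD_and ?_ ?_))
    · exact LD_bind (φ := fun x => wx x (2 * c) - 2) (ψ := fun p x => Ext (hx x) (Nat.unpair c).1 p)
        (LD_map h2 (fun a => a - 2)) (fun p => LD_Ext _ p)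
    · exact LD_forall_lt (LD_map h2 (fun a => a - 2)) (fun l => LD_imp (LD_const _) (LD_not (LD_Ext _ l)))
  exact LD_and (LD_map2 h1 h2 (fun a b => a.1 ≠ a.2 → b = 1))
    (LD_and (LD_map2 h1 h2 (fun a b => a.1 = a.2 → b ≠ 1)) h3)

theorem LD_V2b (c l : ℕ) : LD (fun x => V2b x c l) :=
  LD_imp (LD_map (LD_wx _) (fun a => a = 0)) (LD_imp (LD_const _) (LD_not (LD_Ext _ l)))

theorem LD_V3 (j : ℕ) : LD (fun x => V3 x j) := by
  have h2 : LD (fun x => wx x (2 * j + 1)) := LD_wx _
  refine LD_and (LD_map h2 (fun a => j ≤ (Nat.unpair a).1)) (LD_and ?_ ?_)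
  · exact LD_bind (φ := fun x => wx x (2 * j + 1)) (ψ := fun p x => wx x (2 * p) = 0) h2
      (fun p => LD_map (LD_wx _) (fun a => a = 0))
  · exact LD_forall_lt h2 (fun c => LD_not (LD_and (LD_const _) (LD_map (LD_wx _) (fun a => a = 0))))

/-- `W` is closed -/
theorem W_closed (x : Seq) (hx : x ∉ W) : ∃ m, ∀ y, agree m x y → y ∉ W := by
  have key : ∀ ψ : Seq → Prop, LD ψ → ¬ ψ x → (∀ y ∈ W, ψ y) → ∃ m, ∀ y, agree m x y → y ∉ W := by
    intro ψ hψ hx hW
    obtain ⟨m, hm⟩ := hψ x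
    refine ⟨m, fun y hy hyW => hx ?_⟩
    rw [← hm y hy]
    exact hW y hyW
  by_contra hcon
  apply hx
  refine ⟨fun n => ?_, fun c => ?_, fun c l => ?_, fun j => ?_⟩
  · by_contra h
    exact hcon (key _ (LD_V1 n) h (fun y hy => hy.1 n))
  · by_contra h
    exact hcon (key _ (LD_V2a c) h (fun y hy => hy.2.1 c))
  · by_contra h
    exact hcon (key _ (LD_V2b c l) h (fun y hy => hy.2.2.1 c l))
  · by_contra h
    exact hcon (key _ (LD_V3 j) h (fun y hy => hy.2.2.2 j))

theorem LD_Lb (k : ℕ) : LD (fun x => Lb x k) :=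
  LD_map2 (LD_pos k) (LD_val k) (fun a b => 3 * (a + b + 2 * k + 2) + 4)

theorem LD_valid (m : ℕ) : LD (fun x => valid x m) := fun x => ⟨m, fun y hy => by
  apply propext
  constructor
  · rintro ⟨z, hz, h⟩
    exact ⟨z, hz, fun i hi => (hy i hi).trans (h i hi)⟩
  · rintro ⟨z, hz, h⟩
    exact ⟨z, hz, fun i hi => (hy i hi).symm.trans (h i hi)⟩⟩

theorem LD_Ins (k : ℕ) : LD (fun x => Ins x k) := by
  refine LD_and ?_ ?_
  · exact LD_exists_lt (LD_const _) (fun j => LD_map (LD_wx _) (fun a => (Nat.unpair a).1 = k))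
  · exact LD_bind (φ := fun x => Lb x k) (ψ := fun m x => valid x m) (LD_Lb k) LD_valid

theorem LD_inD (n : ℕ) : LD (fun x => inD x n) :=
  LD_exists_lt (LD_const _) (fun k => LD_and (LD_map (LD_pos k) (fun a => n = a)) (LD_Ins k))

theorem LD_inR (m : ℕ) : LD (fun x => inR x m) :=
  LD_exists_lt (LD_map (LD_hi m) (fun a => a + 1))
    (fun k => LD_and (LD_map (LD_val k) (fun a => m = a)) (LD_Ins k))

theorem LD_α (n : ℕ) : LD (fun x => α x n) := LD_map (LD_prex _) (cA n)
theorem LD_β (n : ℕ) : LD (fun x => β x n) := LD_map (LD_prex _) (cB n)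

theorem LD_P (n : ℕ) : LD (fun x => P x n) := by
  induction n using Nat.strong_induction_on with
  | _ n ih =>
    have : (fun x => P x n) = fun x => ∀ m < n, (n = β x m → ¬ inR x m →
        ∃ n' < m, (m = α x n' ∧ ¬ inD x n' ∧ (n' < n → P x n'))) := by
      funext x
      apply propext
      rw [P]
      constructor
      · intro h m hm h1 h2
        obtain ⟨n', h3, h4, h5, h6⟩ := h m hm h1 h2
        exact ⟨n', h3, h4, h5, fun _ => h6⟩
      · intro h m hm h1 h2
        obtain ⟨n', h3, h4, h5, h6⟩ := h m hm h1 h2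
        exact ⟨n', h3, h4, h5, h6 (h3.trans hm)⟩
    rw [this]
    refine LD_forall_lt (LD_const n) (fun m => LD_imp (LD_map (LD_β m) (fun a => n = a))
      (LD_imp (LD_not (LD_inR m)) (LD_exists_lt (LD_const m) (fun n' => LD_and
        (LD_map (LD_α n') (fun a => m = a)) (LD_and (LD_not (LD_inD n')) ?_)))))
    by_cases hn : n' < n
    · have : (fun x => n' < n → P x n') = fun x => P x n' := by
        funext x; simp [hn]
      rw [this]
      exact ih n' hn
    · have : (fun x => n' < n → P x n') = fun _ => True := by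
        funext x; simp [hn]
      rw [this]
      exact LD_const _

open Classical in
/-- auxiliary -/
noncomputable def fF (n : ℕ) (a : Prop × Prop) (b : ℕ × ℕ) : ℕ :=
  if a.1 then b.1 else if a.2 then b.2 else bm n

theorem LD_f (n : ℕ) : LD (fun x => f x n) := by
  have h1 : LD (fun x => (inD x n, P x n)) := LD_map2 (LD_inD n) (LD_P n) Prod.mk
  have h2 : LD (fun x => (hx x n, α x n)) := LD_map2 (LD_hx n) (LD_α n) Prod.mk
  exact LD_map2 h1 h2 (fF n)

end Pool.Agent.Q302.EP
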