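import Pool.Agent.Q302.EP.Props

/-!
# A closed maximal eventually different family of permutations: maximality and closedness

Helper file for problem MP_6a83a4_lc.
-/

namespace Pool.Agent.Q302.EP

/-! ### existence of valid labels -/

/-- assemble a label -/
def asm (b : ℕ) (h g w : Seq) : Seq := fun i =>
  if i = 0 then b else if (i - 1) % 3 = 0 then h ((i - 1) / 3) else
    if (i - 1) % 3 = 1 then g ((i - 1) / 3) else w ((i - 1) / 3)

theorem asm_zero (b : ℕ) (h g w : Seq) : asm b h g w 0 = b := by simp [asm]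

theorem asm_hx (b : ℕ) (h g w : Seq) : hx (asm b h g w) = h := by
  funext n
  unfold hx asm
  rw [if_neg (by omega), if_pos (by omega)]
  congr 1
  omega

theorem asm_hi (b : ℕ) (h g w : Seq) : hi (asm b h g w) = g := by
  funext n
  unfold hi asm
  rw [if_neg (by omega), if_neg (by omega), if_pos (by omega)]
  congr 1
  omega

theorem asm_wx (b : ℕ) (h g w : Seq) : wx (asm b h g w) = w := by
  funext n
  unfold wx asm
  rw [if_neg (by omega), if_neg (by omega), if_neg (by omega)]
  congr 1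
  omega

theorem exists_valid (h : Seq) (hb : Function.Bijective h) (hT : {k | Term h k}.Infinite) :
    ∃ x ∈ W, hx x = h := by
  classical
  obtain ⟨g, hg1, hg2⟩ := Function.bijective_iff_has_inverse.1 hb
  -- the colour
  obtain ⟨b, hTb⟩ : ∃ b, {k | Term h k ∧ colv (val h k) = b}.Infinite := by
    by_contra hcon
    push Not at hcon
    apply hT
    apply ((hcon 0).union (hcon 1)).subset
    intro k hk
    have := colv_le (val h k)
    have h1 : colv (val h k) = 0 ∨ colv (val h k) = 1 := by omega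
    rcases h1 with h1 | h1
    · exact Or.inl ⟨hk, h1⟩
    · exact Or.inr ⟨hk, h1⟩
  let Γ : ℕ → Prop := fun c => colv (val h (Nat.unpair c).1) = b ∧
    ∀ l, (Nat.unpair c).2 ≤ l → ¬ Ext h (Nat.unpair c).1 l
  have hΓ : ∀ j, ∃ c, j ≤ (Nat.unpair c).1 ∧ Γ c := by
    intro j
    obtain ⟨k, ⟨hk1, hk2⟩, hjk⟩ := hTb.exists_gt j
    obtain ⟨e, he⟩ := hk1.bddAbove
    refine ⟨Nat.pair k (e + 1), ?_, ?_, ?_⟩
    · rw [Nat.unpair_pair]; exact hjk.le
    · rw [Nat.unpair_pair]; exact hk2
    · rw [Nat.unpair_pair]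
      intro l hl hE
      have := he hE
      simp only at hl
      omega
  have hleast : ∀ c, ∃ l, ¬ (∀ l, (Nat.unpair c).2 ≤ l → ¬ Ext h (Nat.unpair c).1 l) →
      (Nat.unpair c).2 ≤ l ∧ Ext h (Nat.unpair c).1 l ∧
        ∀ l' < l, (Nat.unpair c).2 ≤ l' → ¬ Ext h (Nat.unpair c).1 l' := by
    intro c
    by_cases hc : ∀ l, (Nat.unpair c).2 ≤ l → ¬ Ext h (Nat.unpair c).1 l
    · exact ⟨0, fun h' => absurd hc h'⟩
    · push Not at hc
      refine ⟨Nat.find hc, fun _ => ⟨(Nat.find_spec hc).1, (Nat.find_spec hc).2, ?_⟩⟩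
      intro l' hl' h1 h2
      exact Nat.find_min hc hl' ⟨h1, h2⟩
  choose L hL using hleast
  let w : Seq := fun i => if i % 2 = 0 then
      (if colv (val h (Nat.unpair (i / 2)).1) ≠ b then 1 else
        if ∀ l, (Nat.unpair (i / 2)).2 ≤ l → ¬ Ext h (Nat.unpair (i / 2)).1 l then 0 else L (i / 2) + 2)
      else Nat.find (hΓ (i / 2))
  have hwe : ∀ c, w (2 * c) = if colv (val h (Nat.unpair c).1) ≠ b then 1 else
        if ∀ l, (Nat.unpair c).2 ≤ l → ¬ Ext h (Nat.unpair c).1 l then 0 else L c + 2 := by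
    intro c
    have h1 : 2 * c / 2 = c := by omega
    simp only [w]
    rw [if_pos (by omega), h1]
  have hwo : ∀ j, w (2 * j + 1) = Nat.find (hΓ j) := by
    intro j
    have h1 : (2 * j + 1) / 2 = j := by omega
    simp only [w]
    rw [if_neg (by omega)]
    simp only [h1]
  have hw0 : ∀ c, w (2 * c) = 0 ↔ Γ c := by
    intro c
    rw [hwe]
    split_ifs with h1 h2
    · exact ⟨fun h' => absurd h' (by decide), fun h' => absurd h'.1 h1⟩
    · push Not at h1
      exact ⟨fun _ => ⟨h1, h2⟩, fun _ => rfl⟩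
    · exact ⟨fun h' => by simp at h', fun h' => absurd h'.2 h2⟩
  refine ⟨asm b h g w, ⟨?_, ?_, ?_, ?_⟩, asm_hx _ _ _ _⟩
  · intro n
    unfold V1
    rw [asm_hx, asm_hi]
    exact ⟨hg1 n, hg2 n⟩
  · intro c
    unfold V2a
    rw [asm_hx, asm_wx, asm_zero, hwe c]
    refine ⟨fun h1 => if_pos h1, fun h1 => ?_, fun h1 => ?_⟩
    · rw [if_neg (by push Not; exact h1)]
      split_ifs <;> omega
    · split_ifs at h1 ⊢ with h2 h3
      · omega
      · omega
      · obtain ⟨h4, h5, h6⟩ := hL c h3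
        simp only [Nat.add_sub_cancel]
        exact ⟨h4, h5, h6⟩
  · intro c l
    unfold V2b
    rw [asm_hx, asm_wx, hw0]
    intro h1
    exact h1.2 l
  · intro j
    unfold V3
    rw [asm_wx, hwo, hw0]
    refine ⟨(Nat.find_spec (hΓ j)).1, (Nat.find_spec (hΓ j)).2, ?_⟩
    intro c hc h1
    rw [hw0] at h1
    exact Nat.find_min (hΓ j) hc h1

/-- If only finitely many positions are terminal then `h` is covered by a coding branch. -/
theorem exists_branch (h : Seq) (hT : {k | Term h k}.Finite) :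
    ∃ x : Seq, {k | val h k = α x (pos h k)}.Infinite := by
  classical
  obtain ⟨N, hN⟩ := hT.bddAbove
  have hE : ∀ k, N < k → {l | Ext h k l}.Infinite := by
    intro k hk hfin
    have := hN (show k ∈ {k | Term h k} from hfin)
    omega
  have hstep : ∀ k, ∃ l, N < k → k < l ∧ Ext h k l := by
    intro k
    by_cases hk : N < k
    · obtain ⟨l, hl, hkl⟩ := (hE k hk).exists_gt k
      exact ⟨l, fun _ => ⟨hkl, hl⟩⟩
    · exact ⟨0, fun h' => absurd h' hk⟩
  choose s hs using hstep
  obtain ⟨κ, hκ0, hκ⟩ : ∃ κ : ℕ → ℕ, κ 0 = N + 1 ∧ ∀ i, κ (i + 1) = s (κ i) :=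
    ⟨fun i => Nat.rec (N + 1) (fun _ k => s k) i, rfl, fun _ => rfl⟩
  have hκN : ∀ i, N < κ i := by
    intro i
    induction i with
    | zero => rw [hκ0]; omega
    | succ i ih =>
      rw [hκ]
      exact ih.trans (hs _ ih).1
  have hκlt : ∀ i, κ i < κ (i + 1) := fun i => by rw [hκ]; exact (hs _ (hκN i)).1
  have hκmono : StrictMono κ := strictMono_nat_of_lt_succ hκlt
  have hκE : ∀ i, Ext h (κ i) (κ (i + 1)) := fun i => by rw [hκ]; exact (hs _ (hκN i)).2
  have hcod : ∀ i, ∃ t, Cod (pos h (κ i)) (val h (κ i)) t := fun i => by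
    obtain ⟨t, _, ht, -⟩ := hκE i
    exact ⟨t, ht⟩
  choose t ht using hcod
  have hpre1 : ∀ i, t i <+: t (i + 1) := by
    intro i
    obtain ⟨t1, t2, h1, h2, h3⟩ := hκE i
    have e1 : t i = t1 := (cA_inj ((ht i).1.symm.trans h1.1)).2
    have e2 : t (i + 1) = t2 := (cA_inj ((ht (i + 1)).1.symm.trans h2.1)).2
    rw [e1, e2]
    exact h3
  have hpre2 : ∀ i j, i ≤ j → t i <+: t j := by
    intro i j hij
    induction hij with
    | refl => exact List.prefix_rfl
    | step _ ih => exact ih.trans (hpre1 _)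
  have hlen : ∀ i, i < (t i).length := by
    intro i
    rw [(ht i).2]
    have h1 := le_pos h (κ i)
    have h2 := hκmono.id_le i
    simp only [id] at h2
    omega
  let x : Seq := fun j => (t j)[j]'(hlen j)
  have hx : ∀ i, t i = pre x (pos h (κ i) + 1) := by
    intro i
    apply List.ext_getElem
    · rw [pre_length, (ht i).2]
    · intro j h1 h2
      simp only [pre, List.getElem_map, List.getElem_range]
      show (t i)[j] = (t j)[j]'(hlen j)
      rcases le_total i j with h3 | h3
      · exact List.IsPrefix.getElem (hpre2 _ _ h3) h1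
      · exact (List.IsPrefix.getElem (hpre2 _ _ h3) (hlen j)).symm
  refine ⟨x, ?_⟩
  apply (Set.infinite_range_of_injective hκmono.injective).mono
  rintro _ ⟨i, rfl⟩
  show val h (κ i) = α x (pos h (κ i))
  rw [(ht i).1, hx i]
  rfl

/-! ### maximality -/

theorem f_maximal (h : Seq) (hb : Function.Bijective h) : ∃ x, {n | f x n = h n}.Infinite := by
  by_cases hT : {k | Term h k}.Infinite
  · obtain ⟨x, hxW, rfl⟩ := exists_valid h hb hT
    refine ⟨x, ?_⟩
    have h1 : ((pos (hx x)) '' {k | Ins x k}).Infinite :=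
      (infinite_Ins hxW).image (fun k _ l _ e => (pos_eq e).1)
    apply h1.mono
    rintro _ ⟨k, hk, rfl⟩
    exact f_D (inD_iff.2 ⟨k, rfl, hk⟩)
  · obtain ⟨x, hinf⟩ := exists_branch h (Set.not_infinite.1 hT)
    refine ⟨x, ?_⟩
    have hfin : {k | inD x (pos h k)}.Finite := by
      by_cases hh : hx x = h
      · have hxW : x ∉ W := by
          intro hxW
          apply hT
          apply (infinite_Ins hxW).mono
          intro k hk
          rw [← hh]
          exact sel_term hxW hk.1
        apply (finite_Ins_of_not hxW).subset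
        intro k hk
        obtain ⟨l, h1, hl⟩ := inD_iff.1 hk
        obtain ⟨rfl, -⟩ := pos_eq h1
        exact hl
      · obtain ⟨Δ, hΔ⟩ := exists_ne hh
        apply (Set.finite_lt_nat (Δ + 1)).subset
        intro k hk
        obtain ⟨l, h1, hl⟩ := inD_iff.1 hk
        obtain ⟨-, h2⟩ := pos_eq h1
        by_contra hcon
        exact hΔ (h2 Δ (by have : ¬ k < Δ + 1 := hcon; omega)).symm
    have h1 : ((pos h) '' ({k | val h k = α x (pos h k)} \ {k | inD x (pos h k)})).Infinite :=
      (hinf.sdiff hfin).image (fun k _ l _ e => (pos_eq e).1)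
    apply h1.mono
    rintro _ ⟨k, ⟨hk1, hk2⟩, rfl⟩
    have hP : P x (pos h k) := by
      rw [P_iff]
      intro m hm
      exact absurd hm.symm (cB_ne_cC _ _ _)
    show f x (pos h k) = h (pos h k)
    rw [f_A hk2 hP]
    exact hk1.symm

/-! ### closedness -/

theorem f_E (x : Seq) (j : ℕ) : f x (4 * j + 3) = cA (4 * j + 3) (pre x (4 * j + 4)) := by
  have h1 : ¬ inD x (4 * j + 3) := by
    rintro ⟨k, -, h, -⟩
    unfold pos cC at h
    omega
  have h2 : P x (4 * j + 3) := by
    rw [P_iff]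
    intro m hm
    unfold β cB at hm
    omega
  rw [f_A h1 h2]
  rfl

theorem range_closed : IsClosed (Set.range f) := by
  rw [← isSeqClosed_iff_isClosed]
  intro q p hq hp
  choose x hx using hq
  -- pointwise eventual equality
  have hev : ∀ n, ∃ N, ∀ i ≥ N, f (x i) n = p n := by
    intro n
    have h1 := (tendsto_pi_nhds.1 hp) n
    rw [nhds_discrete, Filter.tendsto_pure] at h1
    obtain ⟨N, hN⟩ := Filter.eventually_atTop.1 h1
    exact ⟨N, fun i hi => by rw [hx]; exact hN i hi⟩
  choose N hN using hev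
  let y : Seq := fun j => x (N (4 * j + 3)) j
  have hy : ∀ j, ∀ i ≥ N (4 * j + 3), ∀ l < 4 * j + 4, x i l = x (N (4 * j + 3)) l := by
    intro j i hi
    have h1 := hN (4 * j + 3) i hi
    have h2 := hN (4 * j + 3) _ le_rfl
    rw [← h2, f_E, f_E] at h1
    exact (pre_eq (cA_inj h1).2).2
  refine ⟨y, ?_⟩
  funext n
  obtain ⟨m, hm⟩ := LD_f n y
  -- a large index
  obtain ⟨i, hi1, hi2⟩ : ∃ i, N n ≤ i ∧ ∀ j < m, N (4 * j + 3) ≤ i := by
    refine ⟨max (N n) ((Finset.range m).sup (fun j => N (4 * j + 3))), le_max_left _ _, ?_⟩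
    intro j hj
    exact (Finset.le_sup (f := fun j => N (4 * j + 3)) (Finset.mem_range.2 hj)).trans
      (le_max_right _ _)
  have e : f (x i) n = f y n := hm (x i) (fun j hj => (hy j i (hi2 j hj) j (by omega)).symm)
  rw [← e]
  exact hN n i hi1

end Pool.Agent.Q302.EP
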