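import Pool.Agent.Q302.EP.Defs

/-!
# A closed maximal eventually different family of permutations: bijectivity and eventual difference

Helper file for problem MP_6a83a4_lc.
-/

namespace Pool.Agent.Q302.EP

theorem pre_prefix {y : Seq} {n m : ℕ} (h : n ≤ m) : pre y n <+: pre y m := by
  obtain ⟨d, rfl⟩ := Nat.exists_eq_add_of_le h
  unfold pre
  rw [List.range_add, List.map_append]
  exact List.prefix_append _ _

/-! ### inserted positions -/

theorem Ins_inv {x : Seq} {k : ℕ} (h : Ins x k) : hi x (val (hx x) k) = pos (hx x) k := by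
  obtain ⟨-, y, hy, hxy⟩ := h
  have h0 : ∀ i, 3 * i + 1 < Lb x k → hx x i = hx y i := fun i hi => hxy _ hi
  have hk := le_pos (hx x) k
  have h1 : pos (hx x) k = pos (hx y) k := pos_congr (fun i hi => h0 i (by unfold Lb; omega))
  have h2 : val (hx x) k = val (hx y) k := by
    unfold val
    rw [← h1]
    exact h0 _ (by unfold Lb; omega)
  have h3 : hi x (val (hx x) k) = hi y (val (hx x) k) := hxy _ (by unfold Lb; omega)
  rw [h3, h2, h1]
  exact (hy.1 (pos (hx y) k)).1

theorem Ins_col {x : Seq} {k : ℕ} (h : Ins x k) : colv (val (hx x) k) = x 0 := by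
  obtain ⟨⟨j, hj, hjk⟩, y, hy, hxy⟩ := h
  have h0 : ∀ i, 3 * i + 1 < Lb x k → hx x i = hx y i := fun i hi => hxy _ hi
  have hk := le_pos (hx x) k
  have h1 : pos (hx x) k = pos (hx y) k := pos_congr (fun i hi => h0 i (by unfold Lb; omega))
  have h2 : val (hx x) k = val (hx y) k := by
    unfold val
    rw [← h1]
    exact h0 _ (by unfold Lb; omega)
  have h4 : wx x (2 * j + 1) = wx y (2 * j + 1) := hxy _ (by unfold Lb; omega)
  have h5 : x 0 = y 0 := hxy 0 (by unfold Lb; omega)
  rw [h4] at hjk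
  have h6 := (hy.2.2.2 j).2.1
  have h7 := (hy.2.1 (wx y (2 * j + 1))).1
  rw [hjk] at h7
  rw [h2, h5]
  by_contra hcon
  rw [h7 hcon] at h6
  exact one_ne_zero h6

/-- own codes have the wrong colour -/
theorem col_α {x : Seq} (_hb : x 0 ≤ 1) (n : ℕ) : colv (α x n) ≠ x 0 := by
  have hhead : (pre x (n + 1)).head? = some (x 0) := by
    unfold pre
    rw [List.range_succ_eq_map]
    simp
  unfold colv
  split_ifs with h
  · obtain ⟨n', t, h1, h2, h3⟩ := h
    obtain ⟨rfl, rfl⟩ := cA_inj h1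
    rw [hhead] at h3
    have : x 0 = 0 := by simpa using h3
    omega
  · intro h0
    apply h
    refine ⟨n, pre x (n + 1), rfl, pre_length _ _, ?_⟩
    rw [hhead, ← h0]

theorem Ins_ne_α {x : Seq} {k : ℕ} (h : Ins x k) (n : ℕ) : val (hx x) k ≠ α x n := by
  intro h1
  have h2 := Ins_col h
  have h3 : x 0 ≤ 1 := by rw [← h2]; exact colv_le _
  rw [h1] at h2
  exact col_α h3 n h2

theorem inD_iff {x : Seq} {n : ℕ} : inD x n ↔ ∃ k, n = pos (hx x) k ∧ Ins x k := by
  constructor
  · rintro ⟨k, -, h⟩; exact ⟨k, h⟩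
  · rintro ⟨k, rfl, h⟩
    exact ⟨k, by have := le_pos (hx x) k; omega, rfl, h⟩

theorem inR_iff {x : Seq} {m : ℕ} : inR x m ↔ ∃ k, m = val (hx x) k ∧ Ins x k := by
  constructor
  · rintro ⟨k, -, h⟩; exact ⟨k, h⟩
  · rintro ⟨k, rfl, h⟩
    exact ⟨k, by have := le_pos (hx x) k; rw [Ins_inv h]; omega, rfl, h⟩

theorem not_inD_β {x : Seq} (m : ℕ) (t : List ℕ) : ¬ inD x (cB m t) := by
  rintro ⟨k, -, h, -⟩
  exact cB_ne_cC _ _ _ h

theorem P_iff (x : Seq) (n : ℕ) : P x n ↔ ∀ m, n = β x m → ¬ inR x m →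
    ∃ n', m = α x n' ∧ ¬ inD x n' ∧ P x n' := by
  rw [P]
  constructor
  · intro h m h1 h2
    obtain ⟨n', -, h3⟩ := h m (by rw [h1]; exact lt_β _ _) h1 h2
    exact ⟨n', h3⟩
  · intro h m hm h1 h2
    obtain ⟨n', h3, h4⟩ := h m h1 h2
    exact ⟨n', by rw [h3]; exact lt_α _ _, h3, h4⟩

theorem f_D {x : Seq} {n : ℕ} (h : inD x n) : f x n = hx x n := by
  unfold f; rw [if_pos h]

theorem f_A {x : Seq} {n : ℕ} (h : ¬ inD x n) (h' : P x n) : f x n = α x n := by
  unfold f; rw [if_neg h, if_pos h']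

theorem f_B {x : Seq} {n : ℕ} (h : ¬ inD x n) (h' : ¬ P x n) : ∃ m, n = β x m ∧ ¬ inR x m ∧
    (∀ n', m = α x n' → ¬ inD x n' → ¬ P x n') ∧ f x n = m := by
  have h1 : f x n = bm n := by unfold f; rw [if_neg h, if_neg h']
  rw [P_iff] at h'
  push Not at h'
  obtain ⟨m, h2, h3, h4⟩ := h'
  refine ⟨m, h2, h3, h4, ?_⟩
  rw [h1, h2]
  exact bm_cB _ _

theorem α_inj {x : Seq} {n n' : ℕ} (h : α x n = α x n') : n = n' := (cA_inj h).1
theorem β_inj {x : Seq} {n n' : ℕ} (h : β x n = β x n') : n = n' := (cB_inj h).1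

theorem f_injective (x : Seq) : Function.Injective (f x) := by
  have key : ∀ n n', f x n = f x n' → (inD x n' → inD x n) → ((¬ inD x n' ∧ P x n') → inD x n ∨ P x n) →
      n = n' := by
    intro n n' h hD hP
    by_cases h1 : inD x n
    · obtain ⟨k, rfl, hk⟩ := inD_iff.1 h1
      rw [f_D h1] at h
      by_cases h2 : inD x n'
      · obtain ⟨l, rfl, hl⟩ := inD_iff.1 h2
        rw [f_D h2] at h
        rw [← Ins_inv hk, ← Ins_inv hl]
        unfold val
        rw [h]
      · by_cases h3 : P x n'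
        · rw [f_A h2 h3] at h
          exact absurd h (Ins_ne_α hk n')
        · obtain ⟨m, h4, h5, h6, h7⟩ := f_B h2 h3
          rw [h7] at h
          exact absurd (inR_iff.2 ⟨k, h.symm, hk⟩) h5
    · have h2 : ¬ inD x n' := fun h' => h1 (hD h')
      by_cases h3 : P x n
      · by_cases h4 : P x n'
        · rw [f_A h1 h3, f_A h2 h4] at h
          exact α_inj h
        · obtain ⟨m, h5, h6, h7, h8⟩ := f_B h2 h4
          rw [f_A h1 h3, h8] at h
          exact absurd h3 (h7 n h.symm h1)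
      · have h4 : ¬ P x n' := fun h' => (hP ⟨h2, h'⟩).elim h1 h3
        obtain ⟨m, h5, -, -, h6⟩ := f_B h1 h3
        obtain ⟨m', h7, -, -, h8⟩ := f_B h2 h4
        rw [h5, h7, ← h6, ← h8, h]
  intro n n' h
  -- symmetric cases
  by_cases h1 : inD x n
  · exact key n n' h (fun _ => h1) (fun _ => Or.inl h1)
  · by_cases h2 : inD x n'
    · exact (key n' n h.symm (fun _ => h2) (fun _ => Or.inl h2)).symm
    · by_cases h3 : P x n
      · exact key n n' h (fun h' => absurd h' h2) (fun _ => Or.inr h3)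
      · by_cases h4 : P x n'
        · exact (key n' n h.symm (fun h' => absurd h' h1) (fun _ => Or.inr h4)).symm
        · exact key n n' h (fun h' => absurd h' h2) (fun h' => absurd h'.2 h4)

theorem f_surjective (x : Seq) : Function.Surjective (f x) := by
  intro m
  by_cases h1 : inR x m
  · obtain ⟨k, rfl, hk⟩ := inR_iff.1 h1
    exact ⟨pos (hx x) k, f_D (inD_iff.2 ⟨k, rfl, hk⟩)⟩
  · by_cases h2 : ∃ n', m = α x n' ∧ ¬ inD x n' ∧ P x n'
    · obtain ⟨n', h3, h4, h5⟩ := h2
      exact ⟨n', by rw [f_A h4 h5, ← h3]⟩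
    · refine ⟨β x m, ?_⟩
      have h3 : ¬ inD x (β x m) := not_inD_β _ _
      have h4 : ¬ P x (β x m) := by
        rw [P_iff]
        intro h
        exact h2 (h m rfl h1)
      obtain ⟨m', h5, -, -, h6⟩ := f_B h3 h4
      rw [h6]
      exact (β_inj h5).symm

theorem f_bijective (x : Seq) : Function.Bijective (f x) := ⟨f_injective x, f_surjective x⟩

/-! ### valid labels -/

theorem finite_Ins_of_not {x : Seq} (hxW : x ∉ W) : {k | Ins x k}.Finite := by
  obtain ⟨m, hm⟩ := W_closed x hxW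
  apply (Set.finite_lt_nat m).subset
  rintro k ⟨-, y, hy, hxy⟩
  by_contra hcon
  have hcon' : ¬ k < m := hcon
  have : m ≤ Lb x k := by unfold Lb; omega
  exact hm y (hxy.mono this) hy

theorem sel_term {x : Seq} (hxW : x ∈ W) {k : ℕ} (h : sel x k) : Term (hx x) k := by
  obtain ⟨j, hj, hjk⟩ := h
  have h6 := (hxW.2.2.2 j).2.1
  have h7 := hxW.2.2.1 (wx x (2 * j + 1))
  apply (Set.finite_lt_nat (Nat.unpair (wx x (2 * j + 1))).2).subset
  intro l hl
  by_contra hcon
  have h8 := h7 l h6 (not_lt.1 hcon)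
  rw [hjk] at h8
  exact h8 hl

theorem infinite_Ins {x : Seq} (hxW : x ∈ W) : {k | Ins x k}.Infinite := by
  apply Set.infinite_of_not_bddAbove
  rintro ⟨b, hb⟩
  have h1 := (hxW.2.2.2 (b + 1)).1
  have : (Nat.unpair (wx x (2 * (b + 1) + 1))).1 ∈ {k | Ins x k} := by
    refine ⟨⟨b + 1, by omega, rfl⟩, x, hxW, fun i _ => rfl⟩
  have := hb this
  omega

/-- A valid label is determined by its first coordinate and its permutation. -/
theorem W_unique {x y : Seq} (hxW : x ∈ W) (hyW : y ∈ W) (h0 : x 0 = y 0) (hxy : hx x = hx y) :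
    x = y := by
  have hhi : hi x = hi y := by
    funext m
    have h1 := (hxW.1 m).2
    have h2 := (hyW.1 m).2
    have h3 : hx y (hi x m) = hx y (hi y m) := by rw [← hxy, h1, hxy, h2]
    have h4 : hi y (hx y (hi x m)) = hi y (hx y (hi y m)) := by rw [h3]
    rwa [(hyW.1 _).1, (hyW.1 _).1] at h4
  have hev : ∀ c, wx x (2 * c) = wx y (2 * c) := by
    intro c
    obtain ⟨a1, a2, a3⟩ := hxW.2.1 c
    obtain ⟨b1, b2, b3⟩ := hyW.2.1 c
    have a4 := hxW.2.2.1 c
    have b4 := hyW.2.2.1 c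
    unfold V2b at a4 b4
    rw [hxy] at a1 a2 a3 a4
    rw [h0] at a1 a2
    by_cases hc : colv (val (hx y) (Nat.unpair c).1) = y 0
    · have a5 := a2 hc
      have b5 := b2 hc
      by_cases hx0 : wx x (2 * c) = 0
      · by_cases hy0 : wx y (2 * c) = 0
        · rw [hx0, hy0]
        · obtain ⟨b6, b7, -⟩ := b3 (by omega)
          exact absurd b7 (a4 _ hx0 b6)
      · obtain ⟨a6, a7, a8⟩ := a3 (by omega)
        by_cases hy0 : wx y (2 * c) = 0
        · exact absurd a7 (b4 _ hy0 a6)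
        · obtain ⟨b6, b7, b8⟩ := b3 (by omega)
          rcases lt_trichotomy (wx x (2 * c) - 2) (wx y (2 * c) - 2) with h | h | h
          · exact absurd a7 (b8 _ h a6)
          · omega
          · exact absurd b7 (a8 _ h b6)
    · rw [a1 hc, b1 hc]
  have hodd : ∀ j, wx x (2 * j + 1) = wx y (2 * j + 1) := by
    intro j
    obtain ⟨a1, a2, a3⟩ := hxW.2.2.2 j
    obtain ⟨b1, b2, b3⟩ := hyW.2.2.2 j
    rcases lt_trichotomy (wx x (2 * j + 1)) (wx y (2 * j + 1)) with h | h | h
    · exact absurd ⟨a1, by rw [← hev]; exact a2⟩ (b3 _ h)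
    · exact h
    · exact absurd ⟨b1, by rw [hev]; exact b2⟩ (a3 _ h)
  funext i
  rcases Nat.eq_zero_or_pos i with h | h
  · rw [h]; exact h0
  · have h3 : (i - 1) % 3 = 0 ∨ (i - 1) % 3 = 1 ∨ (i - 1) % 3 = 2 := by omega
    rcases h3 with h3 | h3 | h3
    · have : i = 3 * ((i - 1) / 3) + 1 := by omega
      rw [this]; exact congrFun hxy _
    · have : i = 3 * ((i - 1) / 3) + 2 := by omega
      rw [this]; exact congrFun hhi _
    · have h4 : i = 3 * ((i - 1) / 3) + 3 := by omega
      have h5 : wx x ((i - 1) / 3) = wx y ((i - 1) / 3) := by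
        rcases Nat.even_or_odd' ((i - 1) / 3) with ⟨c, hc | hc⟩
        · rw [hc]; exact hev c
        · rw [hc]; exact hodd c
      rw [h4]
      exact h5

/-! ### eventual difference -/

theorem exists_ne {x y : Seq} (h : x ≠ y) : ∃ Δ, x Δ ≠ y Δ := Function.ne_iff.1 h

theorem finite_DA {x y : Seq} : {n | inD x n ∧ hx x n = α y n}.Finite := by
  by_cases hxW : x ∈ W
  · by_contra hinf
    have hinf : {n | inD x n ∧ hx x n = α y n}.Infinite := hinf
    -- the set of indices
    let K : Set ℕ := {k | Ins x k ∧ val (hx x) k = α y (pos (hx x) k)}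
    have hK : K.Infinite := by
      intro hfin
      apply hinf
      apply (hfin.image (pos (hx x))).subset
      rintro n ⟨h1, h2⟩
      obtain ⟨k, rfl, hk⟩ := inD_iff.1 h1
      exact ⟨k, ⟨hk, h2⟩, rfl⟩
    obtain ⟨k, hk⟩ := hK.nonempty
    have hterm := sel_term hxW hk.1.1
    apply hK
    have h1 : K ⊆ {l | Ext (hx x) k l} ∪ {l | l < pos (hx x) k + 1} := by
      intro l hl
      by_cases h2 : l < pos (hx x) k + 1
      · exact Or.inr h2
      · left
        have h3 := le_pos (hx x) l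
        refine ⟨pre y (pos (hx x) k + 1), pre y (pos (hx x) l + 1), ⟨hk.2, pre_length _ _⟩,
          ⟨hl.2, pre_length _ _⟩, ?_⟩
        have h4 : pos (hx x) k + 1 ≤ pos (hx x) l + 1 := by omega
        exact pre_prefix h4
    exact (hterm.union (Set.finite_lt_nat _)).subset h1
  · apply ((finite_Ins_of_not hxW).image (pos (hx x))).subset
    rintro n ⟨h1, h2⟩
    obtain ⟨k, rfl, hk⟩ := inD_iff.1 h1
    exact ⟨k, hk, rfl⟩

theorem finite_DD {x y : Seq} (hxy : x ≠ y) : {n | inD x n ∧ inD y n}.Finite := by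
  have hfin : ∀ z : Seq, z ∉ W → {n | inD z n}.Finite := by
    intro z hz
    apply ((finite_Ins_of_not hz).image (pos (hx z))).subset
    rintro n h1
    obtain ⟨k, rfl, hk⟩ := inD_iff.1 h1
    exact ⟨k, hk, rfl⟩
  by_cases hh : hx x = hx y
  · by_cases hxW : x ∈ W
    · by_cases hyW : y ∈ W
      · -- the colours differ
        have h0 : x 0 ≠ y 0 := fun h0 => hxy (W_unique hxW hyW h0 hh)
        have : {n | inD x n ∧ inD y n} = ∅ := by
          ext n
          simp only [Set.mem_ofPred_eq, Set.mem_empty_iff_false, iff_false]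
          rintro ⟨h1, h2⟩
          obtain ⟨k, rfl, hk⟩ := inD_iff.1 h1
          obtain ⟨l, h3, hl⟩ := inD_iff.1 h2
          obtain ⟨rfl, -⟩ := pos_eq h3
          have h4 := Ins_col hk
          have h5 := Ins_col hl
          rw [hh, h5] at h4
          exact h0 h4.symm
        rw [this]
        exact Set.finite_empty
      · exact (hfin y hyW).subset (fun n hn => hn.2)
    · exact (hfin x hxW).subset (fun n hn => hn.1)
  · obtain ⟨Δ, hΔ⟩ := exists_ne hh
    apply ((Set.finite_lt_nat (Δ + 1)).image (pos (hx x))).subset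
    rintro n ⟨h1, h2⟩
    obtain ⟨k, rfl, hk⟩ := inD_iff.1 h1
    obtain ⟨l, h3, hl⟩ := inD_iff.1 h2
    obtain ⟨rfl, h4⟩ := pos_eq h3
    refine ⟨k, ?_, rfl⟩
    by_contra hcon
    exact hΔ (h4 Δ (by have : ¬ k < Δ + 1 := hcon; omega))

theorem f_different {x y : Seq} (hxy : x ≠ y) : {n | f x n = f y n}.Finite := by
  obtain ⟨Δ, hΔ⟩ := exists_ne hxy
  have hbig : ({n | inD x n ∧ hx x n = α y n} ∪ {n | inD y n ∧ hx y n = α x n} ∪
      {n | inD x n ∧ inD y n} ∪ {n | n < Δ + 1} ∪ (β x) '' {m | m < Δ + 1}).Finite :=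
    (((finite_DA.union finite_DA).union (finite_DD hxy)).union (Set.finite_lt_nat _)).union
      ((Set.finite_lt_nat _).image _)
  apply hbig.subset
  have hpre : ∀ n, pre x (n + 1) = pre y (n + 1) → n < Δ + 1 := by
    intro n h
    by_contra hcon
    exact hΔ ((pre_eq h).2 Δ (by omega))
  intro n hn
  have hn' : f x n = f y n := hn
  by_cases h1 : inD x n
  · rw [f_D h1] at hn'
    by_cases h2 : inD y n
    · exact Or.inl (Or.inl (Or.inr ⟨h1, h2⟩))
    · by_cases h3 : P y n
      · rw [f_A h2 h3] at hn'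
        exact Or.inl (Or.inl (Or.inl (Or.inl ⟨h1, hn'⟩)))
      · obtain ⟨m, h4, -⟩ := f_B h2 h3
        rw [h4] at h1
        exact absurd h1 (not_inD_β _ _)
  · by_cases h2 : inD y n
    · rw [f_D h2] at hn'
      by_cases h3 : P x n
      · rw [f_A h1 h3] at hn'
        exact Or.inl (Or.inl (Or.inl (Or.inr ⟨h2, hn'.symm⟩)))
      · obtain ⟨m, h4, -⟩ := f_B h1 h3
        rw [h4] at h2
        exact absurd h2 (not_inD_β _ _)
    · by_cases h3 : P x n
      · rw [f_A h1 h3] at hn'
        by_cases h4 : P y n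
        · rw [f_A h2 h4] at hn'
          exact Or.inl (Or.inr (hpre n (cA_inj hn').2))
        · obtain ⟨m, h5, -, -, h6⟩ := f_B h2 h4
          rw [h6] at hn'
          have h7 := lt_α x n
          have h8 := lt_β y m
          omega
      · obtain ⟨m, h5, -, -, h6⟩ := f_B h1 h3
        by_cases h4 : P y n
        · rw [f_A h2 h4, h6] at hn'
          have h7 := lt_α y n
          have h8 := lt_β x m
          omega
        · obtain ⟨m', h7, -, -, h8⟩ := f_B h2 h4
          rw [h6, h8] at hn'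
          subst hn'
          right
          refine ⟨m, hpre m ?_, h5.symm⟩
          rw [h5] at h7
          exact (cB_inj h7).2

end Pool.Agent.Q302.EP
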